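import Mathlib
import Pool.Agent.H7.Schein5

set_option autoImplicit false

namespace Pool.Agent.Results.MP_72bf7f_co.Vanishes

open Finset Real Filter Topology Pool.Agent.H7.Schein

/-- Schein (Boolean) rank: the least `k` such that `A` is the Boolean sum of `k` matrices `u vᵀ`. -/
noncomputable def rank {n : ℕ} (A : Fin n → Fin n → Bool) : ℕ :=
  sInf {k | ∃ u v : Fin k → Fin n → Bool, ∀ i j, A i j = true ↔ ∃ l, u l i = true ∧ v l j = true}

/-- probability that a uniform `n × n` Boolean matrix has Schein rank `< n` -/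
noncomputable def p (n : ℕ) : ℝ :=
  ((univ.filter fun A : Fin n → Fin n → Bool => rank A < n).card : ℝ) / 2 ^ (n ^ 2)

theorem p_eq (n : ℕ) : p n = pr fun A : Mat n => rank (fun i j => A (i, j)) < n := by
  unfold p pr
  rw [Fintype.card_prod, Fintype.card_fin, sq]
  congr 2
  refine card_bij (fun A _ c => A c.1 c.2) (fun A h => by simpa using h) (fun A _ B _ h => ?_)
    (fun B h => ⟨fun i j => B (i, j), by simpa using h, rfl⟩)
  funext i j
  exact congrFun h (i, j)

theorem low {n : ℕ} (A : Mat n) (h : rank (fun i j => A (i, j)) < n) : Low A := by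
  have ne : {k | ∃ u v : Fin k → Fin n → Bool, ∀ i j, A (i, j) = true ↔
      ∃ l, u l i = true ∧ v l j = true}.Nonempty :=
    ⟨n, fun l i => decide (l = i), fun l j => A (l, j), fun i j => by simp⟩
  obtain ⟨u, v, e⟩ := Nat.sInf_mem ne
  refine ⟨_, h, fun l => univ.filter fun i => u l i = true, fun l => univ.filter fun j => v l j = true,
    fun l a ha b hb => (e a b).mpr ⟨l, by simpa using ha, by simpa using hb⟩, fun a b hab => ?_⟩
  obtain ⟨l, x, y⟩ := (e a b).mp hab
  exact ⟨l, mem_filter.mpr ⟨mem_univ _, x⟩, mem_filter.mpr ⟨mem_univ _, y⟩⟩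

theorem lower (n : ℕ) : (1 / 2) ^ (n + 1) ≤ p (n + 1) := by
  rw [p_eq]
  have c := card_cyl (({0} : Finset (Fin (n + 1))) ×ˢ (univ : Finset (Fin (n + 1)))) fun _ => false
  refine le_trans (le_of_eq ?_) (pr_mono (E := fun A : Mat (n + 1) =>
    ∀ c ∈ ({0} : Finset (Fin (n + 1))) ×ˢ (univ : Finset (Fin (n + 1))), A c = false) fun A h => ?_)
  · unfold pr
    rw [eq_div_iff (by positivity)]
    convert c.symm using 1
    · simp; field_simp
    · congr
  · refine Nat.lt_succ_of_le (Nat.sInf_le ⟨fun l i => decide (l.succ = i), fun l j => A (l.succ, j),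
      fun i j => ?_⟩)
    refine Fin.cases ?_ (fun i => by simp) i
    simp [h (0, j) (by simp), Fin.succ_ne_zero]

theorem result : Tendsto p atTop (𝓝 0) ∧ (∃ c : ℝ, 0 < c ∧ ∀ᶠ n : ℕ in atTop, p n ≤ exp (-(c * n))) ∧
    ∀ n : ℕ, 1 ≤ n → (1 / 2) ^ n ≤ p n := by
  have up : ∀ᶠ n : ℕ in atTop, p n ≤ exp (-(1 / 10 ^ 11 * n)) := by
    filter_upwards [ev_low] with n hn
    rw [p_eq]
    exact (pr_mono low).trans hn
  refine ⟨?_, ⟨_, by norm_num, up⟩, fun n hn => ?_⟩
  · refine squeeze_zero' (Eventually.of_forall fun n => by unfold p; positivity) up ?_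
    exact tendsto_exp_neg_atTop_nhds_zero.comp
      ((tendsto_natCast_atTop_atTop (R := ℝ)).const_mul_atTop (by norm_num))
  · obtain ⟨m, rfl⟩ := Nat.exists_eq_add_of_le' hn
    exact lower m

end Pool.Agent.Results.MP_72bf7f_co.Vanishes
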